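import Pool.Agent.H68Z.Tak.Defs

set_option autoImplicit false

open Set

namespace Pool.Agent.H68Z.Tak

theorem phi_le (x : ℝ) (n : ℤ) : phi x ≤ |x - n| := by
  have := Metric.infDist_le_dist_of_mem (x := x) (s := Set.range (fun n : ℤ => (n : ℝ))) ⟨n, rfl⟩
  rwa [Real.dist_eq] at this

theorem phi_eq (x : ℝ) : phi x = |x - round x| := by
  refine le_antisymm (phi_le x _) ?_
  unfold phi
  rw [Metric.le_infDist (range_nonempty _)]
  rintro _ ⟨n, rfl⟩
  rw [Real.dist_eq]
  exact round_le x n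

theorem phi_nonneg (x : ℝ) : 0 ≤ phi x := Metric.infDist_nonneg

theorem phi_le_half (x : ℝ) : phi x ≤ 1 / 2 := by rw [phi_eq]; exact abs_sub_round x

theorem phi_cont : Continuous phi := Metric.continuous_infDist_pt _

theorem phi_add_int (x : ℝ) (n : ℤ) : phi (x + n) = phi x := by
  rw [phi_eq, phi_eq, round_add_intCast]
  push_cast
  ring_nf

theorem phi_neg (x : ℝ) : phi (-x) = phi x := by
  apply le_antisymm
  · rw [phi_eq x]
    have := phi_le (-x) (-round x)
    rwa [Int.cast_neg, neg_sub_neg, abs_sub_comm] at this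
  · rw [phi_eq (-x)]
    have := phi_le x (-round (-x))
    rw [Int.cast_neg, sub_neg_eq_add] at this
    rwa [← abs_neg, neg_add, ← sub_eq_add_neg] at this

theorem phi_small {x : ℝ} (h0 : 0 ≤ x) (h1 : x ≤ 1 / 2) : phi x = x := by
  apply le_antisymm
  · have := phi_le x 0
    simpa [abs_of_nonneg h0] using this
  · rw [phi_eq]
    rcases le_or_gt (round x) 0 with h | h
    · have : ((round x : ℤ) : ℝ) ≤ 0 := by exact_mod_cast h
      exact le_trans (by linarith) (le_abs_self _)
    · have : (1 : ℝ) ≤ ((round x : ℤ) : ℝ) := by exact_mod_cast h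
      exact le_trans (by linarith) (neg_le_abs _)

theorem phi_big {x : ℝ} (h0 : 1 / 2 ≤ x) (h1 : x ≤ 1) : phi x = 1 - x := by
  have h2 : phi x = phi (1 - x) := by
    rw [← phi_neg x, ← phi_add_int (-x) 1]
    congr 1
    push_cast
    ring
  rw [h2, phi_small (by linarith) (by linarith)]

theorem term_le (x : ℝ) (n : ℕ) : ‖phi (2 ^ n * x) / 2 ^ n‖ ≤ (1 / 2 : ℝ) ^ n := by
  rw [Real.norm_of_nonneg (div_nonneg (phi_nonneg _) (by positivity)), one_div, inv_pow,
    div_eq_mul_inv]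
  exact mul_le_of_le_one_left (by positivity) ((phi_le_half _).trans (by norm_num))

theorem summ (x : ℝ) : Summable (fun n : ℕ => phi (2 ^ n * x) / 2 ^ n) :=
  Summable.of_norm_bounded summable_geometric_two (term_le x)

theorem T_cont : Continuous T := by
  unfold T
  refine continuous_tsum (fun n => ?_) summable_geometric_two (fun n x => term_le x n)
  exact (phi_cont.comp (continuous_const.mul continuous_id)).div_const _

theorem T_rec (x : ℝ) : T x = phi x + T (2 * x) / 2 := by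
  unfold T
  rw [(summ x).tsum_eq_zero_add, ← tsum_div_const]
  congr 1
  · simp
  · refine tsum_congr fun n => ?_
    rw [pow_succ, mul_assoc, div_div]

theorem T_add_int (x : ℝ) (k : ℤ) : T (x + k) = T x := by
  unfold T
  refine tsum_congr fun n => ?_
  have : (2 : ℝ) ^ n * (x + k) = 2 ^ n * x + ((2 ^ n * k : ℤ) : ℝ) := by push_cast; ring
  rw [this, phi_add_int]

theorem T_neg (x : ℝ) : T (-x) = T x := by
  unfold T
  refine tsum_congr fun n => ?_
  rw [mul_neg, phi_neg]

theorem T_symm (x : ℝ) : T (1 - x) = T x := by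
  rw [← T_neg x, ← T_add_int (-x) 1]
  congr 1
  push_cast
  ring

theorem T_nonneg (x : ℝ) : 0 ≤ T x :=
  tsum_nonneg fun _ => div_nonneg (phi_nonneg _) (by positivity)

theorem T_zero : T 0 = 0 := by
  have := T_rec 0
  rw [phi_small le_rfl (by norm_num), mul_zero] at this
  linarith

theorem T_one : T 1 = 0 := by
  have := T_symm 0
  rw [sub_zero] at this
  rw [this, T_zero]

theorem T_left {u : ℝ} (h0 : 0 ≤ u) (h1 : u ≤ 1) : T (u / 2) = u / 2 + T u / 2 := by
  rw [T_rec, phi_small (by linarith) (by linarith)]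
  congr 3
  ring

theorem T_right {u : ℝ} (h0 : 0 ≤ u) (h1 : u ≤ 1) : T ((1 + u) / 2) = (1 - u) / 2 + T u / 2 := by
  rw [T_rec, phi_big (by linarith) (by linarith)]
  have : 2 * ((1 + u) / 2) = u + (1 : ℤ) := by push_cast; ring
  rw [this, T_add_int]
  ring

theorem T_half : T (1 / 2) = 1 / 2 := by
  have := T_left (u := 1) (by norm_num) le_rfl
  rw [T_one] at this
  linarith

theorem phi_two (x : ℝ) : phi x + phi (2 * x) / 2 ≤ 1 / 2 := by
  rw [phi_eq x]
  have h := abs_sub_round x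
  rcases le_total 0 (x - round x) with h1 | h1
  · rw [abs_of_nonneg h1] at h ⊢
    have := phi_le (2 * x) (2 * round x + 1)
    push_cast at this
    rw [abs_of_nonpos (by linarith)] at this
    linarith
  · rw [abs_of_nonpos h1] at h ⊢
    have := phi_le (2 * x) (2 * round x - 1)
    push_cast at this
    rw [abs_of_nonneg (by linarith)] at this
    linarith

theorem T_le (x : ℝ) : T x ≤ 2 / 3 := by
  have h2 : ∀ x, T x ≤ 2 := fun x => by
    have := (summ x).tsum_le_tsum (fun n => (le_abs_self _).trans (term_le x n))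
      summable_geometric_two
    rwa [tsum_geometric_two] at this
  have h : ∀ n : ℕ, ∀ x, T x ≤ 2 / 3 + 2 * (1 / 4 : ℝ) ^ n := by
    intro n
    induction n with
    | zero => intro x; have := h2 x; norm_num; linarith
    | succ n ih =>
      intro x
      have e1 := T_rec x
      have e2 := T_rec (2 * x)
      have e3 := ih (2 * (2 * x))
      have e4 := phi_two x
      rw [pow_succ]
      linarith
  have ht : Filter.Tendsto (fun n : ℕ => 2 / 3 + 2 * (1 / 4 : ℝ) ^ n) Filter.atTop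
      (nhds (2 / 3 + 2 * 0)) :=
    ((tendsto_pow_atTop_nhds_zero_of_lt_one (by norm_num) (by norm_num)).const_mul 2).const_add _
  have := ge_of_tendsto' ht (fun n => h n x)
  linarith

/-- Level sets of `T x + D x`. -/
def Lam (D : ℤ) (t : ℝ) : Set ℝ := {x | x ∈ Icc (0 : ℝ) 1 ∧ T x + D * x = t}

theorem Lam_zero (y : ℝ) : Lam 0 y = L y := by
  ext x; simp [Lam, L]

theorem mem_up {D : ℤ} {t u : ℝ} (h : u ∈ Lam (D + 1) (2 * t)) : u / 2 ∈ Lam D t := by
  obtain ⟨⟨h0, h1⟩, h2⟩ := h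
  refine ⟨⟨by linarith, by linarith⟩, ?_⟩
  rw [T_left h0 h1]
  push_cast at h2
  linarith

theorem mem_down {D : ℤ} {t u : ℝ} (h : u ∈ Lam (D - 1) (2 * t - 1 - D)) :
    (1 + u) / 2 ∈ Lam D t := by
  obtain ⟨⟨h0, h1⟩, h2⟩ := h
  refine ⟨⟨by linarith, by linarith⟩, ?_⟩
  rw [T_right h0 h1]
  push_cast at h2
  linarith

theorem mem_cases {D : ℤ} {t x : ℝ} (h : x ∈ Lam D t) :
    (∃ u ∈ Lam (D + 1) (2 * t), x = u / 2) ∨
      ∃ u ∈ Lam (D - 1) (2 * t - 1 - D), x = (1 + u) / 2 := by
  obtain ⟨⟨h0, h1⟩, h2⟩ := h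
  rcases le_total x (1 / 2) with h3 | h3
  · left
    have h4 := T_left (u := 2 * x) (by linarith) (by linarith)
    rw [show 2 * x / 2 = x by ring] at h4
    refine ⟨2 * x, ⟨⟨by linarith, by linarith⟩, ?_⟩, by ring⟩
    push_cast
    linarith
  · right
    have h4 := T_right (u := 2 * x - 1) (by linarith) (by linarith)
    rw [show (1 + (2 * x - 1)) / 2 = x by ring] at h4
    refine ⟨2 * x - 1, ⟨⟨by linarith, by linarith⟩, ?_⟩, by ring⟩
    push_cast
    linarith

theorem mem_symm {D : ℤ} {t x : ℝ} (h : x ∈ Lam D t) : 1 - x ∈ Lam (-D) (t - D) := by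
  obtain ⟨⟨h0, h1⟩, h2⟩ := h
  refine ⟨⟨by linarith, by linarith⟩, ?_⟩
  rw [T_symm]
  push_cast
  linarith

theorem T_sub_le (E : ℕ) : ∀ x : ℝ, 0 ≤ x → x ≤ 1 → T x - E * x ≤ 2 / 3 / 2 ^ E := by
  induction E with
  | zero => intro x _ _; simpa using T_le x
  | succ E ih =>
    intro x h0 h1
    have hE : (0 : ℝ) ≤ E := by positivity
    have hp : (0 : ℝ) < 2 / 3 / 2 ^ E := by positivity
    have he : (2 / 3 / 2 ^ (E + 1) : ℝ) = 2 / 3 / 2 ^ E / 2 := by rw [pow_succ]; ring
    rw [he]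
    push_cast
    rcases le_total x (1 / 2) with h3 | h3
    · have h4 := T_left (u := 2 * x) (by linarith) (by linarith)
      rw [show 2 * x / 2 = x by ring] at h4
      have h5 := ih (2 * x) (by linarith) (by linarith)
      linarith
    · have h4 := T_right (u := 2 * x - 1) (by linarith) (by linarith)
      rw [show (1 + (2 * x - 1)) / 2 = x by ring] at h4
      have h5 := ih (2 * x - 1) (by linarith) (by linarith)
      nlinarith

theorem bounds_pos {E : ℕ} {t x : ℝ} (h : x ∈ Lam E t) : 0 ≤ t ∧ t ≤ E + 2 / 3 / 2 ^ E := by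
  obtain ⟨⟨h0, h1⟩, h2⟩ := h
  push_cast at h2
  have h3 := T_nonneg x
  have h4 := T_sub_le E (1 - x) (by linarith) (by linarith)
  rw [T_symm] at h4
  have hE : (0 : ℝ) ≤ E * x := by positivity
  constructor <;> linarith

theorem bounds_neg {E : ℕ} {t x : ℝ} (h : x ∈ Lam (-E) t) : -E ≤ t ∧ t ≤ 2 / 3 / 2 ^ E := by
  have h1 := mem_symm h
  rw [neg_neg] at h1
  have h2 := bounds_pos h1
  push_cast at h2
  constructor <;> linarith [h2.1, h2.2]

theorem exists_mem {D : ℤ} {t : ℝ} (h0 : 0 ≤ t) (h1 : t ≤ D) : (Lam D t).Nonempty := by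
  have hc : ContinuousOn (fun x : ℝ => T x + D * x) (Icc 0 1) :=
    (T_cont.add (continuous_const.mul continuous_id)).continuousOn
  obtain ⟨x, hx1, hx2⟩ := intermediate_value_Icc (zero_le_one' ℝ) hc
    (show t ∈ Icc _ _ by simp [T_zero, T_one, h0, h1])
  exact ⟨x, hx1, hx2⟩

theorem exists_mem_zero {t : ℝ} (h0 : 0 ≤ t) (h1 : t ≤ 1 / 2) : (Lam 0 t).Nonempty := by
  obtain ⟨u, hu⟩ := exists_mem (D := 0 + 1) (t := 2 * t) (by linarith) (by push_cast; linarith)
  exact ⟨_, mem_up hu⟩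

end Pool.Agent.H68Z.Tak
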