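import Pool.Agent.H68Z.Tak.Basic

set_option autoImplicit false

open Set MeasureTheory

namespace Pool.Agent.H68Z.Tak

/-- Number of solutions of `T x + D x = t`. -/
noncomputable def N (D : ℤ) (t : ℝ) : ℕ∞ := (Lam D t).encard

theorem irr_two {t : ℝ} (ht : Irrational t) : Irrational (2 * t) := by
  have := ht.natCast_mul (m := 2) (by norm_num)
  simpa using this

theorem irr_aff {t : ℝ} (ht : Irrational t) (p q : ℚ) (hp : p ≠ 0) : Irrational (q + p * t) :=
  (ht.ratCast_mul hp).ratCast_add q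

theorem N_rec (D : ℤ) {t : ℝ} (ht : Irrational t) :
    N D t = N (D + 1) (2 * t) + N (D - 1) (2 * t - 1 - D) := by
  have h1 : Lam D t = (fun u : ℝ => u / 2) '' Lam (D + 1) (2 * t) ∪
      (fun u : ℝ => (1 + u) / 2) '' Lam (D - 1) (2 * t - 1 - D) := by
    ext x
    constructor
    · intro h
      rcases mem_cases h with ⟨u, hu, rfl⟩ | ⟨u, hu, rfl⟩
      · exact Or.inl ⟨u, hu, rfl⟩
      · exact Or.inr ⟨u, hu, rfl⟩
    · rintro (⟨u, hu, rfl⟩ | ⟨u, hu, rfl⟩)
      · exact mem_up hu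
      · exact mem_down hu
  unfold N
  rw [h1, encard_union_eq, Function.Injective.encard_image, Function.Injective.encard_image]
  · intro a b hab
    have : (1 + a) / 2 = (1 + b) / 2 := hab
    linarith
  · intro a b hab
    have : a / 2 = b / 2 := hab
    linarith
  · rw [Set.disjoint_left]
    rintro _ ⟨u, hu, rfl⟩ ⟨v, hv, huv⟩
    have e : (1 + v) / 2 = u / 2 := huv
    have hu1 : u = 1 := by linarith [hu.1.2, hv.1.1]
    have h2 := hu.2
    rw [hu1, T_one] at h2
    apply (irr_two ht).ne_int (D + 1)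
    rw [← h2]
    simp

theorem N_symm (D : ℤ) (t : ℝ) : N (-D) (t - D) = N D t := by
  have h1 : Lam (-D) (t - D) = (fun x : ℝ => 1 - x) '' Lam D t := by
    ext x
    constructor
    · intro h
      have := mem_symm h
      refine ⟨1 - x, ?_, by ring⟩
      convert this using 2
      · ring
      · push_cast; ring
    · rintro ⟨u, hu, rfl⟩
      exact mem_symm hu
  unfold N
  rw [h1, Function.Injective.encard_image]
  exact sub_right_injective

theorem N_neg_t (E : ℕ) {t : ℝ} (h : t < 0) : N E t = 0 := by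
  unfold N
  rw [encard_eq_zero, eq_empty_iff_forall_notMem]
  intro x hx
  linarith [(bounds_pos hx).1]

theorem N_big (E : ℕ) {t : ℝ} (h : 2 / 3 / 2 ^ E < t) : N (-E) t = 0 := by
  unfold N
  rw [encard_eq_zero, eq_empty_iff_forall_notMem]
  intro x hx
  linarith [(bounds_neg hx).2]

theorem N_up (E : ℕ) (hE : 1 ≤ E) {t : ℝ} (ht : Irrational t) (h : 2 * t < E + 1) :
    N E t = N (E + 1 : ℕ) (2 * t) := by
  obtain ⟨F, rfl⟩ : ∃ F, E = F + 1 := ⟨E - 1, by omega⟩
  rw [N_rec _ ht]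
  have h1 : ((F + 1 : ℕ) : ℤ) - 1 = (F : ℕ) := by push_cast; ring
  rw [h1, N_neg_t F (by push_cast at h ⊢; linarith), add_zero]
  rfl

theorem N_up_iter (r : ℕ) : ∀ (E : ℕ) (t : ℝ), 1 ≤ E → 0 < t → Irrational t → 2 ^ r * t < E + 1 →
    N E t = N (E + r : ℕ) (2 ^ r * t) := by
  induction r with
  | zero => intro E t _ _ _ _; simp
  | succ r ih =>
    intro E t hE h0 ht h
    have h2 : (1 : ℝ) ≤ 2 ^ r := one_le_pow₀ (by norm_num)
    have h3 : (2 : ℝ) ^ (r + 1) * t = 2 ^ r * (2 * t) := by ring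
    rw [N_up E hE ht (by rw [h3] at h; nlinarith), ih (E + 1) (2 * t) (by omega) (by linarith)
      (irr_two ht) (by rw [h3] at h; push_cast; linarith), h3]
    congr 2
    omega

theorem N_neg_iter (E : ℕ) : ∀ u : ℝ, Irrational u → 1 / 6 < 2 ^ (E + 1) * u →
    N (-(E + 1 : ℕ)) u = N 0 (2 ^ (E + 1) * u) := by
  induction E with
  | zero =>
    intro u hu h
    rw [N_rec _ hu]
    have h1 : N (-((0 + 1 : ℕ) : ℤ) - 1) (2 * u - 1 - ((-((0 + 1 : ℕ) : ℤ) : ℤ) : ℝ)) = 0 := by
      have := N_big 2 (t := 2 * u) (by norm_num at h ⊢; linarith)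
      convert this using 2
      push_cast
      ring
    rw [h1, add_zero]
    simp
  | succ E ih =>
    intro u hu h
    have h0 : 0 < u := by
      by_contra h0
      have : (2 : ℝ) ^ (E + 1 + 1) * u ≤ 0 :=
        mul_nonpos_of_nonneg_of_nonpos (by positivity) (not_lt.1 h0)
      linarith
    rw [N_rec _ hu]
    have h1 : N (-((E + 1 + 1 : ℕ) : ℤ) - 1)
        (2 * u - 1 - ((-((E + 1 + 1 : ℕ) : ℤ) : ℤ) : ℝ)) = 0 := by
      have h2 : (2 / 3 / 2 ^ (E + 3) : ℝ) ≤ 2 / 3 :=
        div_le_self (by norm_num) (one_le_pow₀ (by norm_num))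
      have h3 : (0 : ℝ) ≤ E := by positivity
      have := N_big (E + 3) (t := 2 * u + E + 1) (by linarith)
      convert this using 2
      · push_cast; ring
      · push_cast; ring
    have h3 : (2 : ℝ) ^ (E + 1 + 1) * u = 2 ^ (E + 1) * (2 * u) := by ring
    have h4 : -((E + 1 + 1 : ℕ) : ℤ) + 1 = -((E + 1 : ℕ) : ℤ) := by push_cast; ring
    rw [h1, add_zero, h3, ← ih (2 * u) (irr_two hu) (by rw [← h3]; exact h), h4]

theorem N_zero {y : ℝ} (hy : Irrational y) : N 0 y = 2 * N 1 (2 * y) := by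
  rw [N_rec _ hy, two_mul (N 1 (2 * y))]
  congr 1
  rw [← N_symm 1 (2 * y)]
  congr 1
  push_cast
  ring

theorem N_even {v : ℝ} (hv : Irrational v) (h : 1 / 6 < v) : N 0 (1 / 2 + v / 4) = 2 * N 0 v := by
  have h1 : Irrational (1 / 2 + v / 4) := by
    convert irr_aff hv (1 / 4) (1 / 2) (by norm_num) using 1
    push_cast; ring
  rw [N_zero h1, N_rec _ (irr_two h1)]
  have h2 : N (1 + 1) (2 * (2 * (1 / 2 + v / 4))) = 0 := by
    rw [← N_symm]
    have := N_big 2 (t := v) (by norm_num at h ⊢; linarith)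
    convert this using 2
    push_cast
    ring
  rw [h2, zero_add]
  congr 2
  push_cast
  ring

/-- Next to a steep branch. -/
def Steep (E : ℕ) : Prop := ∃ (a : ℚ) (k : ℕ), ∀ u : ℝ, 0 < u → u < 1 → Irrational u →
  1 / 6 < a + u / 2 ^ k ∧ a + u / 2 ^ k < 1 ∧
    N 0 (a + u / 2 ^ k) = 2 * (N E u + N (-(E + 2 : ℕ)) u)

theorem steep_two : Steep 2 := by
  refine ⟨1 / 4, 4, fun u h0 h1 hu => ?_⟩
  have e : (((1 / 4 : ℚ) : ℝ) + u / 2 ^ 4) = 1 / 4 + u / 16 := by push_cast; ring
  rw [e]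
  refine ⟨by linarith, by linarith, ?_⟩
  have i1 : Irrational (1 / 4 + u / 16) := by
    convert irr_aff hu (1 / 16) (1 / 4) (by norm_num) using 1
    push_cast; ring
  have h2 := N_up 1 le_rfl (irr_two i1) (by push_cast; linarith)
  have h3 := N_up (1 + 1) (by norm_num) (irr_two (irr_two i1)) (by push_cast; linarith)
  have i2 := irr_two (irr_two (irr_two i1))
  rw [N_zero i1]
  congr 1
  rw [show (1 : ℤ) = ((1 : ℕ) : ℤ) from rfl, h2, h3, N_rec _ i2, add_comm]
  congr 1
  · congr 1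
    push_cast
    ring
  · rw [← N_symm]
    congr 1
    push_cast
    ring

theorem steep_step (F : ℕ) (h : Steep (F + 1)) : Steep (2 * F + 1) := by
  obtain ⟨a, k, h⟩ := h
  refine ⟨a + (2 * F + 3) / 2 ^ (F + 2 + k), F + 2 + k, fun u h0 h1 hu => ?_⟩
  have hp : (0 : ℝ) < 2 ^ (F + 2) := by positivity
  have hF : (2 * F + 4 : ℝ) ≤ 2 ^ (F + 2) := by
    have : F + 1 ≤ 2 ^ F := Nat.lt_two_pow_self
    have h2 : (F + 1 : ℝ) ≤ 2 ^ F := by exact_mod_cast this
    have h3 : (0 : ℝ) ≤ F := by positivity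
    rw [pow_add]
    linarith
  have hF0 : (0 : ℝ) ≤ F := by positivity
  set w : ℝ := (2 * F + 3 + u) / 2 ^ (F + 2) with hw
  have hw0 : 0 < w := by positivity
  have hw1 : w < 1 := by rw [hw, div_lt_one hp]; linarith
  have iw : Irrational w := by
    convert irr_aff hu (1 / 2 ^ (F + 2)) ((2 * F + 3) / 2 ^ (F + 2)) (by positivity) using 1
    push_cast
    rw [hw]
    ring
  have e : (((a + (2 * F + 3) / 2 ^ (F + 2 + k) : ℚ) : ℝ) + u / 2 ^ (F + 2 + k)) =
      a + w / 2 ^ k := by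
    push_cast
    rw [hw, pow_add (2 : ℝ) (F + 2) k]
    field_simp
    ring
  obtain ⟨h2, h3, h4⟩ := h w hw0 hw1 iw
  rw [e]
  refine ⟨h2, h3, ?_⟩
  have e2 : (2 : ℝ) ^ (F + 1) * w = (2 * F + 3 + u) / 2 := by
    rw [hw, pow_succ (2 : ℝ) (F + 1)]
    field_simp
  have h5 : N (-(F + 1 + 2 : ℕ)) w = 0 := by
    apply N_big
    rw [hw, div_lt_div_iff₀ (by positivity) hp, pow_succ (2 : ℝ) (F + 2)]
    nlinarith
  have h6 := N_up_iter (F + 1) (F + 1) w (by omega) hw0 iw (by rw [e2]; push_cast; linarith)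
  have i2 : Irrational ((2 * F + 3 + u) / 2) := by
    convert irr_aff hu (1 / 2) ((2 * F + 3) / 2) (by norm_num) using 1
    push_cast; ring
  rw [h4, h5, add_zero, h6, e2, N_rec _ i2, add_comm]
  congr 2
  · congr 1
    · push_cast; ring
    · push_cast; ring
  · rw [← N_symm]
    congr 1
    · push_cast; ring
    · push_cast; ring

theorem steep_large (n : ℕ) : ∃ E, n + 2 ≤ E ∧ Steep E := by
  induction n with
  | zero => exact ⟨2, le_rfl, steep_two⟩
  | succ n ih =>
    obtain ⟨E, h1, h2⟩ := ih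
    obtain ⟨F, rfl⟩ : ∃ F, E = F + 1 := ⟨E - 1, by omega⟩
    exact ⟨2 * F + 1, by omega, steep_step F h2⟩

/-- Levels met by a hump of depth at most `n`. -/
def bad : ℕ → ℕ → Set ℝ
  | _, 0 => Icc 0 1
  | 0, _ + 1 => ∅
  | n + 1, G + 1 => {t | 2 * t ∈ bad n (G + 2)} ∪ {t | 2 * t - (G + 2) ∈ bad n G}

theorem vol_aff (c b : ℝ) (hc : 0 < c) (A : Set ℝ) :
    volume {y : ℝ | c * y + b ∈ A} = ENNReal.ofReal c⁻¹ * volume A := by
  have h1 : {y : ℝ | c * y + b ∈ A} = (fun y => c * y) ⁻¹' ((fun z => z + b) ⁻¹' A) := rfl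
  rw [h1, Real.volume_preimage_mul_left hc.ne', measure_preimage_add_right,
    abs_of_pos (inv_pos.2 hc)]

theorem bad_vol (n : ℕ) : ∀ G, volume (bad n G) ≤ 1 := by
  induction n with
  | zero => intro G; cases G <;> simp [bad]
  | succ n ih =>
    intro G
    cases G with
    | zero => simp [bad]
    | succ G =>
      rw [bad]
      refine (measure_union_le _ _).trans ?_
      have h1 := vol_aff 2 0 (by norm_num) (bad n (G + 2))
      have h2 := vol_aff 2 (-(G + 2)) (by norm_num) (bad n G)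
      simp only [add_zero] at h1
      simp only [← sub_eq_add_neg] at h2
      rw [h1, h2]
      have h3 : ENNReal.ofReal (2 : ℝ)⁻¹ = 2⁻¹ := by
        rw [ENNReal.ofReal_inv_of_pos (by norm_num)]; simp
      rw [h3]
      calc 2⁻¹ * volume (bad n (G + 2)) + 2⁻¹ * volume (bad n G) ≤ 2⁻¹ * 1 + 2⁻¹ * 1 := by
            gcongr
            · exact ih _
            · exact ih _
        _ = 1 := by rw [mul_one, ENNReal.inv_two_add_inv_two]

theorem bad_mono (n : ℕ) : ∀ G, bad n G ⊆ bad (n + 1) G := by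
  induction n with
  | zero => intro G; cases G <;> simp [bad]
  | succ n ih =>
    intro G
    cases G with
    | zero => simp [bad]
    | succ G =>
      rw [bad, bad]
      exact union_subset_union (fun t ht => ih _ ht) (fun t ht => ih _ ht)

theorem bad_union_vol (G : ℕ) : volume (⋃ n, bad n G) ≤ 1 := by
  rw [(monotone_nat_of_le_succ (fun n => bad_mono n G)).measure_iUnion]
  exact iSup_le fun n => bad_vol n G

theorem zero_bad {t x : ℝ} (n : ℕ) (h : x ∈ Lam (0 : ℕ) t) : t ∈ bad n 0 := by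
  have := bounds_pos h
  have e : bad n 0 = Icc 0 1 := by cases n <;> rfl
  rw [e]
  norm_num at this
  exact ⟨this.1, by linarith [this.2]⟩

theorem cases_nat {G : ℕ} {t x : ℝ} (h : x ∈ Lam (G + 1 : ℕ) t) :
    (∃ u ∈ Lam (G + 2 : ℕ) (2 * t), x = u / 2) ∨
      ∃ u ∈ Lam G (2 * t - (G + 2)), x = (1 + u) / 2 := by
  rcases mem_cases h with ⟨u, hu, rfl⟩ | ⟨u, hu, rfl⟩
  · exact Or.inl ⟨u, hu, rfl⟩
  · refine Or.inr ⟨u, ?_, rfl⟩
    convert hu using 2
    · push_cast; ring
    · push_cast; ring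

theorem excess (n : ℕ) : ∀ (G : ℕ) (t x : ℝ), t ∉ bad n G → x ∈ Lam G t →
    t - G ≤ (1 / 2) ^ n := by
  induction n with
  | zero =>
    intro G t x _ h
    have h1 := (bounds_pos h).2
    have h2 : (2 / 3 / 2 ^ G : ℝ) ≤ 2 / 3 := div_le_self (by norm_num) (one_le_pow₀ (by norm_num))
    norm_num
    linarith
  | succ n ih =>
    intro G t x hb h
    cases G with
    | zero => exact absurd (zero_bad _ h) hb
    | succ G =>
      rw [bad, mem_union, not_or] at hb
      have hG : (0 : ℝ) ≤ G := by positivity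
      rw [pow_succ]
      rcases cases_nat h with ⟨u, hu, -⟩ | ⟨u, hu, -⟩
      · have := ih _ _ _ hb.1 hu
        push_cast at this ⊢
        linarith
      · have := ih _ _ _ hb.2 hu
        push_cast at this ⊢
        linarith

theorem good_succ {G : ℕ} {t : ℝ} (h : ∀ n, t ∉ bad n (G + 1)) :
    (∀ n, 2 * t ∉ bad n (G + 2)) ∧ ∀ n, 2 * t - (G + 2) ∉ bad n G := by
  constructor <;> intro n hn <;> apply h (n + 1) <;> rw [bad]
  · exact Or.inl hn
  · exact Or.inr hn

theorem le_of_good {G : ℕ} {t x : ℝ} (hb : ∀ n, t ∉ bad n G) (h : x ∈ Lam G t) : t ≤ G := by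
  have ht : Filter.Tendsto (fun n : ℕ => (1 / 2 : ℝ) ^ n) Filter.atTop (nhds 0) :=
    tendsto_pow_atTop_nhds_zero_of_lt_one (by norm_num) (by norm_num)
  have := ge_of_tendsto' ht (fun n => excess n G t x (hb n) h)
  linarith

theorem close (n : ℕ) : ∀ (G : ℕ) (t x y : ℝ), Irrational t → (∀ n, t ∉ bad n G) →
    x ∈ Lam G t → y ∈ Lam G t → |x - y| ≤ (1 / 2) ^ n := by
  induction n with
  | zero =>
    intro G t x y _ _ hx hy
    rw [pow_zero, abs_le]
    constructor <;> linarith [hx.1.1, hx.1.2, hy.1.1, hy.1.2]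
  | succ n ih =>
    intro G t x y ht hb hx hy
    cases G with
    | zero => exact absurd (zero_bad 0 hx) (hb 0)
    | succ G =>
      obtain ⟨g1, g2⟩ := good_succ hb
      have i2 : Irrational (2 * t - (G + 2)) := by
        convert irr_aff ht 2 (-(G + 2)) (by norm_num) using 1
        push_cast; ring
      have hmix : ∀ u v, u ∈ Lam (G + 2 : ℕ) (2 * t) → v ∈ Lam G (2 * t - (G + 2)) → False := by
        intro u v hu hv
        have e1 := le_of_good g1 hu
        have e2 := (bounds_pos hv).1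
        push_cast at e1
        apply i2.ne_zero
        linarith
      rw [pow_succ]
      rcases cases_nat hx with ⟨u, hu, rfl⟩ | ⟨u, hu, rfl⟩ <;>
        rcases cases_nat hy with ⟨v, hv, rfl⟩ | ⟨v, hv, rfl⟩
      · have := ih _ _ _ _ (irr_two ht) g1 hu hv
        rw [abs_le] at this ⊢
        constructor <;> linarith [this.1, this.2]
      · exact (hmix _ _ hu hv).elim
      · exact (hmix _ _ hv hu).elim
      · have := ih _ _ _ _ i2 g2 hu hv
        rw [abs_le] at this ⊢
        constructor <;> linarith [this.1, this.2]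

theorem N_one {G : ℕ} {t : ℝ} (ht : Irrational t) (h0 : 0 ≤ t) (h1 : t ≤ G)
    (hb : ∀ n, t ∉ bad n G) : N G t = 1 := by
  obtain ⟨x, hx⟩ := exists_mem (D := G) h0 (by exact_mod_cast h1)
  unfold N
  rw [encard_eq_one]
  refine ⟨x, eq_singleton_iff_unique_mem.2 ⟨hx, fun y hy => ?_⟩⟩
  have hl : Filter.Tendsto (fun n : ℕ => (1 / 2 : ℝ) ^ n) Filter.atTop (nhds 0) :=
    tendsto_pow_atTop_nhds_zero_of_lt_one (by norm_num) (by norm_num)
  have := ge_of_tendsto' hl (fun n => close n G t y x ht hb hy hx)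
  have h2 := abs_nonpos_iff.1 this
  linarith

end Pool.Agent.H68Z.Tak
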