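import Pool.Agent.H68Z.Tak.Basic

set_option autoImplicit false

open Set

namespace Pool.Agent.H68Z.Tak

/-- States `(D, p, r)`: slope `D`, level `p / 74898`, rank `r`. -/
def cert : List (ℤ × ℤ × ℕ) := [
    (0, 1901, 17), (-1, -71096, 16), (-2, -142192, 16), (-3, -209486, 16), (-4, -269176, 16),
    (-5, -313658, 16), (-6, -327724, 16), (-7, -280958, 16), (-8, -112528, 16), (-7, -225056, 16),
    (-8, -724, 16), (-7, -1448, 16), (-6, -2896, 16), (-5, -5792, 16), (-4, -11584, 16),
    (-3, -23168, 16), (-2, -46336, 16), (-3, -17774, 16), (-2, -35548, 16), (-3, 3802, 15),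
    (-2, 7604, 14), (-1, 15208, 13), (0, 30416, 8), (-1, -14066, 7), (-2, -28132, 6),
    (-1, -56264, 5), (-2, -112528, 4), (-3, -150158, 4), (-4, -150520, 4), (-5, -76346, 4),
    (-4, -152692, 4), (-5, -80690, 4), (-4, -161380, 4), (-5, -98066, 4), (-4, -196132, 4),
    (-5, -167570, 4), (-6, -35548, 4), (-5, -71096, 4), (-4, -142192, 4), (-5, -59690, 4),
    (-4, -119380, 4), (-5, -14066, 4), (-4, -28132, 4), (-3, -56264, 4), (1, 60832, 3),
    (2, 121664, 2), (1, 18634, 1), (2, 37268, 0), (3, 74536, 0), (4, 149072, 0),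
    (5, 298144, 0), (4, 146900, 0), (5, 293800, 0), (4, 138212, 0), (5, 276424, 0),
    (4, 103460, 0), (5, 206920, 0), (6, 413840, 0), (5, 303394, 0), (4, 157400, 0),
    (5, 314800, 0), (4, 180212, 0), (5, 360424, 0), (4, 271460, 0), (3, 168430, 0),
    (1, 3802, 12), (2, 7604, 12), (3, 15208, 12), (4, 30416, 12), (5, 60832, 12),
    (6, 121664, 12), (7, 243328, 12), (8, 486656, 12), (7, 299230, 12), (8, 598460, 12),
    (7, 522838, 12), (6, 446492, 12), (5, 368698, 12), (4, 288008, 12), (3, 201526, 12),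
    (2, 103460, 12), (3, 206920, 12), (2, 114248, 12), (3, 228496, 11), (2, 157400, 10),
    (1, 90106, 9)]

def inval (D p : ℤ) : Bool :=
  if 0 ≤ D then decide (p < 0) || decide (2 * 74898 < 3 * 2 ^ D.natAbs * (p - D * 74898))
  else decide (p < D * 74898) || decide (2 * 74898 < 3 * 2 ^ D.natAbs * p)

def low (D p : ℤ) (r : ℕ) : Bool :=
  inval D p || cert.any (fun s => decide (s.1 = D) && decide (s.2.1 = p) && decide (s.2.2 < r))

def same (D p : ℤ) (r : ℕ) : Bool :=
  cert.any (fun s => decide (s.1 = D) && decide (s.2.1 = p) && decide (s.2.2 = r))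

def okS (s : ℤ × ℤ × ℕ) : Bool :=
  (low (s.1 + 1) (2 * s.2.1) s.2.2 &&
    (low (s.1 - 1) (2 * s.2.1 - (1 + s.1) * 74898) s.2.2 ||
      same (s.1 - 1) (2 * s.2.1 - (1 + s.1) * 74898) s.2.2)) ||
  (same (s.1 + 1) (2 * s.2.1) s.2.2 && low (s.1 - 1) (2 * s.2.1 - (1 + s.1) * 74898) s.2.2)

theorem cert_ok : cert.all okS = true := by decide +kernel

theorem inval_spec {D p : ℤ} (h : inval D p = true) {x : ℝ} (hx : x ∈ Lam D (p / 74898)) :
    False := by
  unfold inval at h
  split_ifs at h with hD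
  · obtain ⟨E, rfl⟩ := Int.eq_ofNat_of_zero_le hD
    have hb := bounds_pos hx
    simp only [Int.natAbs_natCast, Bool.or_eq_true, decide_eq_true_eq] at h
    rcases h with h | h
    · have : (p : ℝ) < 0 := by exact_mod_cast h
      linarith [hb.1]
    · have h1 : (2 * 74898 : ℝ) < 3 * 2 ^ E * (p - E * 74898) := by exact_mod_cast h
      have h2 : (p : ℝ) / 74898 - E ≤ 2 / 3 / 2 ^ E := by linarith [hb.2]
      rw [le_div_iff₀ (by positivity)] at h2
      nlinarith
  · obtain ⟨E, rfl⟩ : ∃ E : ℕ, D = -E := ⟨D.natAbs, by omega⟩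
    have hb := bounds_neg hx
    simp only [Int.natAbs_neg, Int.natAbs_natCast, Bool.or_eq_true, decide_eq_true_eq] at h
    rcases h with h | h
    · have : (p : ℝ) < -E * 74898 := by exact_mod_cast h
      linarith [hb.1]
    · have h1 : (2 * 74898 : ℝ) < 3 * 2 ^ E * p := by exact_mod_cast h
      have h2 := hb.2
      rw [le_div_iff₀ (by positivity)] at h2
      nlinarith

/-- Points of level sets of states of rank below `r`. -/
def lowSet (r : ℕ) : Set ℝ := ⋃ s ∈ {s | s ∈ cert ∧ s.2.2 < r}, Lam s.1 (s.2.1 / 74898)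

/-- Dyadic closure. -/
def Cl (A : Set ℝ) : Set ℝ := ⋃ n : ℕ, ⋃ k : ℤ, (fun a : ℝ => (a + k) / 2 ^ n) '' A

theorem Cl_countable {A : Set ℝ} (h : A.Countable) : (Cl A).Countable :=
  countable_iUnion fun _ => countable_iUnion fun _ => h.image _

theorem Cl_step {A : Set ℝ} {u : ℝ} (h : u ∈ Cl A) : u / 2 ∈ Cl A ∧ (1 + u) / 2 ∈ Cl A := by
  simp only [Cl, mem_iUnion, mem_image] at h ⊢
  obtain ⟨n, k, a, ha, rfl⟩ := h
  refine ⟨⟨n + 1, k, a, ha, by rw [pow_succ]; ring⟩, ⟨n + 1, k + 2 ^ n, a, ha, ?_⟩⟩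
  rw [pow_succ]
  push_cast
  field_simp
  ring

theorem low_spec {D p : ℤ} {r : ℕ} (h : low D p r = true) {x : ℝ} (hx : x ∈ Lam D (p / 74898)) :
    x ∈ Cl (lowSet r) := by
  unfold low at h
  rw [Bool.or_eq_true] at h
  rcases h with h | h
  · exact (inval_spec h hx).elim
  · simp only [List.any_eq_true, Bool.and_eq_true, decide_eq_true_eq] at h
    obtain ⟨s, hs, ⟨rfl, rfl⟩, h3⟩ := h
    simp only [Cl, mem_iUnion, mem_image]
    refine ⟨0, 0, x, ?_, by simp⟩
    simp only [lowSet, mem_iUnion]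
    exact ⟨s, ⟨hs, h3⟩, hx⟩

theorem same_spec {D p : ℤ} {r : ℕ} (h : same D p r = true) : (D, p, r) ∈ cert := by
  unfold same at h
  simp only [List.any_eq_true, Bool.and_eq_true, decide_eq_true_eq] at h
  obtain ⟨s, hs, ⟨rfl, rfl⟩, rfl⟩ := h
  exact hs

theorem cases_int {D p : ℤ} {x : ℝ} (h : x ∈ Lam D (p / 74898)) :
    (∃ u ∈ Lam (D + 1) ((2 * p : ℤ) / 74898), x = u / 2) ∨
      ∃ u ∈ Lam (D - 1) ((2 * p - (1 + D) * 74898 : ℤ) / 74898), x = (1 + u) / 2 := by
  rcases mem_cases h with ⟨u, hu, rfl⟩ | ⟨u, hu, rfl⟩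
  · refine Or.inl ⟨u, ?_, rfl⟩
    convert hu using 2
    push_cast; ring
  · refine Or.inr ⟨u, ?_, rfl⟩
    convert hu using 2
    push_cast; ring

theorem close' (r n : ℕ) : ∀ (D p : ℤ) (x y : ℝ), (D, p, r) ∈ cert → x ∈ Lam D (p / 74898) →
    y ∈ Lam D (p / 74898) → x ∉ Cl (lowSet r) → y ∉ Cl (lowSet r) → |x - y| ≤ (1 / 2) ^ n := by
  induction n with
  | zero =>
    intro D p x y _ hx hy _ _
    rw [pow_zero, abs_le]
    constructor <;> linarith [hx.1.1, hx.1.2, hy.1.1, hy.1.2]
  | succ n ih =>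
    intro D p x y hs hx hy hx' hy'
    have hok := List.all_eq_true.1 cert_ok _ hs
    simp only [okS, Bool.or_eq_true, Bool.and_eq_true] at hok
    rw [pow_succ]
    rcases hok with ⟨h0, h1 | h1⟩ | ⟨h0, h1⟩
    · rcases cases_int hx with ⟨u, hu, rfl⟩ | ⟨u, hu, rfl⟩
      · exact absurd (Cl_step (low_spec h0 hu)).1 hx'
      · exact absurd (Cl_step (low_spec h1 hu)).2 hx'
    · rcases cases_int hx with ⟨u, hu, rfl⟩ | ⟨u, hu, rfl⟩
      · exact absurd (Cl_step (low_spec h0 hu)).1 hx'
      rcases cases_int hy with ⟨v, hv, rfl⟩ | ⟨v, hv, rfl⟩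
      · exact absurd (Cl_step (low_spec h0 hv)).1 hy'
      have := ih _ _ _ _ (same_spec h1) hu hv (fun h => hx' (Cl_step h).2)
        (fun h => hy' (Cl_step h).2)
      rw [abs_le] at this ⊢
      constructor <;> linarith [this.1, this.2]
    · rcases cases_int hx with ⟨u, hu, rfl⟩ | ⟨u, hu, rfl⟩
      swap
      · exact absurd (Cl_step (low_spec h1 hu)).2 hx'
      rcases cases_int hy with ⟨v, hv, rfl⟩ | ⟨v, hv, rfl⟩
      swap
      · exact absurd (Cl_step (low_spec h1 hv)).2 hy'
      have := ih _ _ _ _ (same_spec h0) hu hv (fun h => hx' (Cl_step h).1)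
        (fun h => hy' (Cl_step h).1)
      rw [abs_le] at this ⊢
      constructor <;> linarith [this.1, this.2]

theorem cert_countable (r : ℕ) : ∀ D p : ℤ, (D, p, r) ∈ cert → (Lam D (p / 74898)).Countable := by
  induction r using Nat.strong_induction_on with
  | _ r ih =>
    intro D p hs
    have h1 : (lowSet r).Countable := by
      refine Countable.biUnion (to_countable _) ?_
      rintro ⟨D', p', r'⟩ ⟨h1, h2⟩
      exact ih r' h2 D' p' h1
    have h2 : (Lam D (p / 74898) \ Cl (lowSet r)).Subsingleton := by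
      intro x hx y hy
      have hl : Filter.Tendsto (fun n : ℕ => (1 / 2 : ℝ) ^ n) Filter.atTop (nhds 0) :=
        tendsto_pow_atTop_nhds_zero_of_lt_one (by norm_num) (by norm_num)
      have := ge_of_tendsto' hl (fun n => close' r n D p x y hs hx.1 hy.1 hx.2 hy.2)
      have h2 := abs_nonpos_iff.1 this
      linarith
    refine (h2.countable.union (Cl_countable h1)).mono ?_
    intro x hx
    by_cases h : x ∈ Cl (lowSet r)
    · exact Or.inr h
    · exact Or.inl ⟨hx, h⟩

theorem L_countable : (L (1901 / 74898)).Countable := by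
  have := cert_countable 17 0 1901 (by decide +kernel)
  rw [← Lam_zero]
  simpa only [Int.cast_ofNat] using this

/-- The state reached along a binary word. -/
def run : List Bool → ℤ × ℤ → ℤ × ℤ
  | [], s => s
  | false :: w, s => run w (s.1 + 1, 2 * s.2)
  | true :: w, s => run w (s.1 - 1, 2 * s.2 - (1 + s.1) * 74898)

/-- The contraction given by a binary word. -/
noncomputable def app : List Bool → ℝ → ℝ
  | [], u => u
  | false :: w, u => app w u / 2
  | true :: w, u => (1 + app w u) / 2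

theorem app_mem (w : List Bool) : ∀ (s : ℤ × ℤ) (u : ℝ),
    u ∈ Lam (run w s).1 ((run w s).2 / 74898) → app w u ∈ Lam s.1 (s.2 / 74898) := by
  induction w with
  | nil => intro s u h; exact h
  | cons b w ih =>
    intro s u h
    cases b with
    | false =>
      have := ih _ u h
      apply mem_up
      convert this using 2
      push_cast; ring
    | true =>
      have := ih _ u h
      apply mem_down
      convert this using 2
      push_cast; ring

def w0 : List Bool := [false, false, false, false, false, false, false, true, false, true, true,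
  true, true, true, true, false, true]

theorem cyc (u : ℝ) (h : u ∈ Lam 1 (3802 / 74898)) :
    (u + 1531) / 2 ^ 18 ∈ Lam 1 (3802 / 74898) := by
  have h1 : run (w0 ++ [true]) (1, 3802) = (1, 3802) := by decide +kernel
  have h2 := app_mem (w0 ++ [true]) (1, 3802) u (by rw [h1]; simpa only [Int.cast_ofNat] using h)
  have h3 : app (w0 ++ [true]) u = (u + 1531) / 2 ^ 18 := by
    simp only [w0, List.cons_append, List.nil_append, app]
    ring
  rw [h3] at h2
  simpa only [Int.cast_ofNat] using h2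

theorem side : ∃ x ∈ Lam 1 (3802 / 74898), x < 1531 / (2 ^ 18 - 1) := by
  obtain ⟨z, hz⟩ := exists_mem_zero (t := 30416 / 74898) (by norm_num) (by norm_num)
  have h1 : run (w0 ++ [false, true, true, true]) (1, 3802) = (0, 30416) := by decide +kernel
  have h2 := app_mem (w0 ++ [false, true, true, true]) (1, 3802) z
    (by rw [h1]; simpa only [Int.cast_ofNat] using hz)
  refine ⟨app (w0 ++ [false, true, true, true]) z, by simpa only [Int.cast_ofNat] using h2, ?_⟩
  simp only [w0, List.cons_append, List.nil_append, app]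
  have := hz.1.2
  norm_num
  linarith

theorem L_infinite : (L (1901 / 74898)).Infinite := by
  obtain ⟨x, hx1, hx2⟩ := side
  set c : ℝ := 1531 / (2 ^ 18 - 1) with hc
  have h1 : ∀ n : ℕ, c - (c - x) * (1 / 2 ^ 18) ^ n ∈ Lam 1 (3802 / 74898) := by
    intro n
    induction n with
    | zero => simpa using hx1
    | succ n ih =>
      convert cyc _ ih using 1
      rw [pow_succ, hc]
      ring
  refine infinite_of_injective_forall_mem
    (f := fun n : ℕ => (c - (c - x) * (1 / 2 ^ 18) ^ n) / 2) ?_ ?_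
  · intro m n hmn
    have h2 : (c - x) * (1 / 2 ^ 18 : ℝ) ^ m = (c - x) * (1 / 2 ^ 18) ^ n := by
      have : (c - (c - x) * (1 / 2 ^ 18) ^ m) / 2 = (c - (c - x) * (1 / 2 ^ 18) ^ n) / 2 := hmn
      linarith
    have h3 := mul_left_cancel₀ (by linarith : c - x ≠ 0) h2
    exact pow_right_injective₀ (by norm_num) (by norm_num) h3
  · intro n
    rw [← Lam_zero]
    apply mem_up
    convert h1 n using 2 <;> norm_num

theorem T_dyadic (m : ℕ) : ∀ k : ℤ, ∃ j : ℤ, T (k / 2 ^ m) * 2 ^ m = j := by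
  induction m with
  | zero =>
    intro k
    have := T_add_int 0 k
    rw [zero_add, T_zero] at this
    exact ⟨0, by simp [this]⟩
  | succ m ih =>
    intro k
    obtain ⟨j, hj⟩ := ih k
    refine ⟨|k - round ((k : ℝ) / 2 ^ (m + 1)) * 2 ^ (m + 1)| + j, ?_⟩
    have e : 2 * ((k : ℝ) / 2 ^ (m + 1)) = k / 2 ^ m := by rw [pow_succ]; field_simp
    rw [T_rec, e, phi_eq]
    push_cast
    rw [← hj, add_mul, ← abs_of_pos (show (0 : ℝ) < 2 ^ (m + 1) by positivity), ← abs_mul,
      abs_of_pos (show (0 : ℝ) < 2 ^ (m + 1) by positivity), sub_mul,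
      div_mul_cancel₀ _ (by positivity), pow_succ]
    ring

theorem not_dyadic (m : ℕ) (k : ℤ) : T (k / 2 ^ m) ≠ 1901 / 74898 := by
  intro h
  obtain ⟨j, hj⟩ := T_dyadic m k
  rw [h] at hj
  have h1 : (1901 * 2 ^ m : ℝ) = 3 * (24966 * j) := by linarith
  have h2 : (1901 * 2 ^ m : ℤ) = 3 * (24966 * j) := by exact_mod_cast h1
  have h3 : (3 : ℤ) ∣ 1901 * 2 ^ m := ⟨_, h2⟩
  rcases Int.prime_three.dvd_or_dvd h3 with h4 | h4
  · norm_num at h4
  · have := Int.prime_three.dvd_of_dvd_pow h4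
    norm_num at this

end Pool.Agent.H68Z.Tak
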