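import Mathlib

set_option autoImplicit false

namespace Pool.Agent.H68Z.Tak

/-- The distance from `x` to the nearest integer. -/
noncomputable def phi (x : ℝ) : ℝ := Metric.infDist x (Set.range (fun n : ℤ => (n : ℝ)))

/-- The Takagi function. -/
noncomputable def T (x : ℝ) : ℝ := ∑' n : ℕ, phi (2 ^ n * x) / 2 ^ n

/-- The level set of the Takagi function on `[0,1]` at height `y`. -/
def L (y : ℝ) : Set ℝ := {x | x ∈ Set.Icc (0 : ℝ) 1 ∧ T x = y}

end Pool.Agent.H68Z.Tak
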