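import Pool.Agent.H68Z.Tak.Card

set_option autoImplicit false

open Set MeasureTheory

namespace Pool.Agent.H68Z.Tak

/-- The induction statement. -/
def Pos (n : ℕ) : Prop := ∃ A : Set ℝ, MeasurableSet A ∧ 0 < volume A ∧
  ∀ v ∈ A, 1 / 6 < v ∧ v < 1 ∧ Irrational v ∧ N 0 v = 2 * n

theorem aff_set (c b : ℝ) (hc : 0 < c) {A : Set ℝ} (h1 : MeasurableSet A) (h2 : 0 < volume A) :
    MeasurableSet {y : ℝ | c * y + b ∈ A} ∧ 0 < volume {y : ℝ | c * y + b ∈ A} := by
  constructor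
  · exact (show Measurable fun y : ℝ => c * y + b by fun_prop) h1
  · rw [vol_aff c b hc]
    exact ENNReal.mul_pos (ENNReal.ofReal_pos.2 (inv_pos.2 hc)).ne' h2.ne'

theorem pos_zero : Pos 0 := by
  have hc : (range ((↑) : ℚ → ℝ)).Countable := countable_range _
  refine ⟨Ioo (2 / 3) 1 \ range ((↑) : ℚ → ℝ), measurableSet_Ioo.diff hc.measurableSet, ?_, ?_⟩
  · rw [measure_sdiff_null (hc.measure_zero _), Real.volume_Ioo]
    exact ENNReal.ofReal_pos.2 (by norm_num)
  · rintro v ⟨⟨h1, h2⟩, h3⟩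
    refine ⟨by linarith, h2, h3, ?_⟩
    have := N_big 0 (t := v) (by norm_num; linarith)
    simpa using this

theorem pos_even (n : ℕ) (h : Pos n) : Pos (2 * n) := by
  obtain ⟨A, h1, h2, h3⟩ := h
  obtain ⟨h4, h5⟩ := aff_set 4 (-2) (by norm_num) h1 h2
  refine ⟨_, h4, h5, fun y hy => ?_⟩
  obtain ⟨e1, e2, e3, e4⟩ := h3 _ hy
  have e5 : y = 1 / 2 + (4 * y + -2) / 4 := by ring
  refine ⟨by linarith, by linarith, ?_, ?_⟩
  · convert irr_aff e3 (1 / 4) (1 / 2) (by norm_num) using 1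
    push_cast; ring
  · rw [e5, N_even e3 e1, e4]
    push_cast
    ring

theorem pos_odd (n : ℕ) (h : Pos n) : Pos (2 * n + 1) := by
  obtain ⟨A, h1, h2, h3⟩ := h
  obtain ⟨r, hr⟩ : ∃ r : ℕ, ENNReal.ofReal ((2 : ℝ) ^ r)⁻¹ < volume A := by
    obtain ⟨r, hr⟩ := ENNReal.exists_inv_two_pow_lt h2.ne'
    refine ⟨r, ?_⟩
    rw [ENNReal.ofReal_inv_of_pos (by positivity), ENNReal.ofReal_pow (by norm_num)]
    simpa [ENNReal.inv_pow] using hr
  obtain ⟨E, hE, a, k, hS⟩ := steep_large (2 ^ r)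
  set G : ℕ := E + (E + 2) + r with hG
  let B : Set ℝ := toMeasurable volume {v : ℝ | 2 ^ r * v + 0 ∈ ⋃ n, bad n G}
  have hB : volume B < volume A := by
    rw [measure_toMeasurable, vol_aff _ _ (by positivity)]
    refine lt_of_le_of_lt ?_ hr
    exact mul_le_of_le_one_right' (bad_union_vol G)
  have hA' : 0 < volume (A \ B) := by
    by_contra h0
    have h4 : volume (A \ B) = 0 := by simpa using h0
    have h5 : volume A ≤ volume (A \ B) + volume B := by
      refine le_trans (measure_mono ?_) (measure_union_le _ _)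
      intro x hx
      by_cases hxB : x ∈ B
      · exact Or.inr hxB
      · exact Or.inl ⟨hx, hxB⟩
    rw [h4, zero_add] at h5
    exact absurd hB (not_lt.2 h5)
  obtain ⟨h4, h5⟩ := aff_set (2 ^ (E + 2) * 2 ^ k) (-(2 ^ (E + 2) * 2 ^ k * a)) (by positivity)
    (h1.diff (measurableSet_toMeasurable _ _)) hA'
  refine ⟨_, h4, h5, fun y hy => ?_⟩
  set v : ℝ := 2 ^ (E + 2) * 2 ^ k * y + -(2 ^ (E + 2) * 2 ^ k * a) with hv
  obtain ⟨e1, e2, e3, e4⟩ := h3 v hy.1
  have hnb : ∀ n, 2 ^ r * v ∉ bad n G := by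
    intro n hn
    apply hy.2
    apply subset_toMeasurable
    exact mem_iUnion.2 ⟨n, by rw [add_zero]; exact hn⟩
  have hp : (1 : ℝ) ≤ 2 ^ (E + 2) := one_le_pow₀ (by norm_num)
  set u : ℝ := v / 2 ^ (E + 2) with hu
  have hv0 : 0 < v := by linarith
  have hu0 : 0 < u := by positivity
  have hu1 : u < 1 := by rw [hu, div_lt_one (by positivity)]; linarith
  have iu : Irrational u := by
    convert irr_aff e3 (1 / 2 ^ (E + 2)) 0 (by positivity) using 1
    push_cast
    rw [hu]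
    ring
  have e5 : y = a + u / 2 ^ k := by
    rw [hu, hv]
    field_simp
    ring
  have e6 : (2 : ℝ) ^ (E + 2) * u = v := by rw [hu]; field_simp
  obtain ⟨s1, s2, s3⟩ := hS u hu0 hu1 iu
  have hE0 : (0 : ℝ) ≤ E := by positivity
  have hE1 : 1 ≤ E := le_trans (by norm_num) ((Nat.le_add_left 2 (2 ^ r)).trans hE)
  have hEr : (2 : ℝ) ^ r + 2 ≤ E := by exact_mod_cast hE
  have hr0 : (0 : ℝ) ≤ r := by positivity
  have hrp : (0 : ℝ) < 2 ^ r := by positivity
  have ir : Irrational (2 ^ r * v) := by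
    convert irr_aff e3 (2 ^ r) 0 (by positivity) using 1
    push_cast
    ring
  have n1 : N E u = 1 := by
    rw [N_up_iter (E + 2) E u hE1 hu0 iu (by rw [e6]; linarith), e6,
      N_up_iter r _ v (by omega) hv0 e3 (by push_cast; nlinarith)]
    exact N_one ir (by positivity) (by push_cast; nlinarith) hnb
  have n2 : N (-(E + 2 : ℕ)) u = 2 * n := by
    rw [N_neg_iter (E + 1) u iu (by rw [e6]; exact e1), e6, e4]
  refine ⟨by rw [e5]; exact s1, by rw [e5]; exact s2, ?_, ?_⟩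
  · rw [e5]
    convert irr_aff iu (1 / 2 ^ k) a (by positivity) using 1
    push_cast
    ring
  · rw [e5, s3, n1, n2]
    push_cast
    ring

theorem pos_all (n : ℕ) : Pos n := by
  induction n using Nat.strong_induction_on with
  | _ n ih =>
    rcases Nat.eq_zero_or_pos n with rfl | hn
    · exact pos_zero
    rcases Nat.even_or_odd' n with ⟨m, rfl | rfl⟩
    · exact pos_even m (ih m (by omega))
    · exact pos_odd m (ih m (by omega))

end Pool.Agent.H68Z.Tak
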